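import Pool.Agent.H638.IB.Final

/-!
# MP_5ac201_gt: iterated intersection bodies converge to the Euclidean ball

For every `n ≥ 3` and every origin-symmetric convex body `K ⊆ ℝⁿ` the Banach-Mazur distance of the
`m`-th iterated intersection body of `K` to the Euclidean ball tends to `1` as `m → ∞`; the
convergence is uniform in `K`.
-/

set_option autoImplicit false

open MeasureTheory Set Filter Topology Metric
open scoped Pointwise

namespace Pool.Agent.Results.MP_5ac201_gt.UniformConvergence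

/-- Euclidean `n`-space. -/
abbrev E (n : ℕ) : Type := EuclideanSpace ℝ (Fin n)

/-- The closed unit ball. -/
def unitBall (n : ℕ) : Set (E n) := closedBall 0 1

/-- Origin-symmetric convex bodies: compact, convex, with nonempty interior and `K = -K`. -/
structure IsSymConvexBody {n : ℕ} (K : Set (E n)) : Prop where
  isCompact : IsCompact K
  convex : Convex ℝ K
  interior_nonempty : (interior K).Nonempty
  neg_mem : ∀ x ∈ K, -x ∈ K

/-- The hyperplane through the origin orthogonal to `u`. -/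
noncomputable abbrev hyp {n : ℕ} (u : E n) : Submodule ℝ (E n) := (ℝ ∙ u)ᗮ

/-- Lebesgue measure of the hyperplane `hyp u`. -/
noncomputable abbrev hypVol {n : ℕ} (u : E n) : Measure (hyp u) := volume

/-- The `(n-1)`-dimensional volume of the section of `K` by the hyperplane through the origin
orthogonal to `u`. -/
noncomputable def secVol {n : ℕ} (K : Set (E n)) (u : E n) : ℝ :=
  (hypVol u {y : hyp u | (y : E n) ∈ K}).toReal

/-- The intersection body: the star body whose radial function is `secVol K` on unit vectors. -/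
def interBody {n : ℕ} (K : Set (E n)) : Set (E n) :=
  {x | ∃ u : E n, ‖u‖ = 1 ∧ ∃ r : ℝ, 0 ≤ r ∧ r ≤ secVol K u ∧ x = r • u}

/-- The Banach-Mazur distance
`inf {l ≥ 1 : there is an invertible linear T with B ⊆ T A ⊆ l B}`. -/
noncomputable def dBM {n : ℕ} (A B : Set (E n)) : ℝ :=
  sInf {l : ℝ | 1 ≤ l ∧ ∃ T : E n ≃ₗ[ℝ] E n, B ⊆ T '' A ∧ T '' A ⊆ l • B}

theorem body_iff {n : ℕ} (K : Set (E n)) : IsSymConvexBody K ↔ Pool.Agent.H638.IB.Body K :=
  ⟨fun h => ⟨h.1, h.2, h.3, h.4⟩, fun h => ⟨h.1, h.2, h.3, h.4⟩⟩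

/-- Let `n ≥ 3`. For every origin-symmetric convex body `K` in `ℝⁿ` all iterated intersection bodies
of `K` are origin-symmetric convex bodies and their Banach-Mazur distance to the unit ball tends to
`1`; moreover the convergence is uniform in `K`: for every `ε > 0` there is `M` such that
`1 ≤ dBM (I^m K) B ≤ 1 + ε` for all `m ≥ M` and all `K`. -/
theorem result {n : ℕ} (hn : 3 ≤ n) :
    (∀ K : Set (E n), IsSymConvexBody K →
      Tendsto (fun m : ℕ => dBM (interBody^[m] K) (unitBall n)) atTop (𝓝 1)) ∧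
    (∀ ε : ℝ, 0 < ε → ∃ M : ℕ, ∀ m, M ≤ m → ∀ K : Set (E n), IsSymConvexBody K →
      IsSymConvexBody (interBody^[m] K) ∧
      (∃ T : E n ≃ₗ[ℝ] E n, unitBall n ⊆ T '' (interBody^[m] K) ∧
        T '' (interBody^[m] K) ⊆ (1 + ε) • unitBall n) ∧
      1 ≤ dBM (interBody^[m] K) (unitBall n) ∧ dBM (interBody^[m] K) (unitBall n) ≤ 1 + ε) := by
  obtain ⟨N, rfl⟩ : ∃ N, n = N + 1 := ⟨n - 1, by omega⟩
  have hU := Pool.Agent.H638.IB.UNI_final N (by omega)
  have h2 : ∀ ε : ℝ, 0 < ε → ∃ M : ℕ, ∀ m, M ≤ m → ∀ K : Set (E (N + 1)), IsSymConvexBody K →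
      IsSymConvexBody (interBody^[m] K) ∧
      (∃ T : E (N + 1) ≃ₗ[ℝ] E (N + 1), unitBall (N + 1) ⊆ T '' (interBody^[m] K) ∧
        T '' (interBody^[m] K) ⊆ (1 + ε) • unitBall (N + 1)) ∧
      1 ≤ dBM (interBody^[m] K) (unitBall (N + 1)) ∧
      dBM (interBody^[m] K) (unitBall (N + 1)) ≤ 1 + ε := by
    intro ε hε
    obtain ⟨M, hM⟩ := hU ε hε
    refine ⟨M, fun m hm K hK => ?_⟩
    obtain ⟨h3, T, h4, h5⟩ := hM m hm K ((body_iff K).1 hK)
    have h6 : T '' (interBody^[m] K) ⊆ (1 + ε) • unitBall (N + 1) := by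
      have : (1 + ε) • unitBall (N + 1) = closedBall (0 : E (N + 1)) (1 + ε) := by
        unfold unitBall
        rw [smul_closedBall' (by positivity), smul_zero, mul_one, Real.norm_eq_abs,
          abs_of_pos (by positivity)]
      rw [this]
      exact h5
    have hne : ({l : ℝ | 1 ≤ l ∧ ∃ T : E (N + 1) ≃ₗ[ℝ] E (N + 1),
        unitBall (N + 1) ⊆ T '' (interBody^[m] K) ∧
          T '' (interBody^[m] K) ⊆ l • unitBall (N + 1)}).Nonempty :=
      ⟨1 + ε, by linarith, T, h4, h6⟩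
    have hbd : BddBelow {l : ℝ | 1 ≤ l ∧ ∃ T : E (N + 1) ≃ₗ[ℝ] E (N + 1),
        unitBall (N + 1) ⊆ T '' (interBody^[m] K) ∧
          T '' (interBody^[m] K) ⊆ l • unitBall (N + 1)} := ⟨1, fun l hl => hl.1⟩
    exact ⟨(body_iff _).2 h3, ⟨T, h4, h6⟩, le_csInf hne fun l hl => hl.1,
      csInf_le hbd ⟨by linarith, T, h4, h6⟩⟩
  refine ⟨fun K hK => ?_, h2⟩
  rw [Metric.tendsto_atTop]
  intro ε hε
  obtain ⟨M, hM⟩ := h2 (ε / 2) (by linarith)
  refine ⟨M, fun m hm => ?_⟩
  obtain ⟨-, -, h3, h4⟩ := hM m hm K hK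
  rw [Real.dist_eq, abs_of_nonneg (by linarith)]
  linarith

end Pool.Agent.Results.MP_5ac201_gt.UniformConvergence
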